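import Pool.Agent.Helper345.KnotA.Comb
import Pool.Agent.Helper242.KnotA.A6
import Pool.Agent.Helper242.KnotA.L3

/-! Part A of MP_188a32_co: the semialgebraic Ramsey lemma `KnotA.partA`. -/

set_option autoImplicit false
set_option linter.unusedVariables false

namespace KnotA

section

/-- few pairs of representatives lie in a hyperplane -/
theorem hyper_count {K B : ℕ} (Δ : List (Fin K) → (Fin 4 → R3)) (rep : List (Fin K) → R3)
    (u : List (Fin K)) (hD : IsFam B (Δ u) (fun i => Δ (u ++ [i])))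
    (hr : ∀ i, rep (u ++ [i]) ∈ hull (Δ (u ++ [i]))) (g : (Fin 6 → ℝ) →ₗ[ℝ] ℝ) (c : ℝ)
    (hg : g ≠ 0) : (Rset rep {x | g x = c} u).ncard ≤ 7 * B * K := by
  obtain ⟨h1, h2, h3⟩ := Pl_aff g c
  refine le_trans (Set.ncard_le_ncard ?_ (Set.toFinite _))
    (L3 hD (fun x y => g (Pl x y) - c) h1 h2 (h3 hg))
  intro q hq
  obtain ⟨_, hq2⟩ := hq
  simp only [Set.mem_setOf_eq] at hq2 ⊢
  rintro (h | h)
  · have := h _ (hr q.1) _ (hr q.2)
    linarith
  · have := h _ (hr q.1) _ (hr q.2)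
    linarith

end

section

/-- most pairs of representatives in a region give pairs of simplices in the region -/
theorem region_count {K B : ℕ} (Δ : List (Fin K) → (Fin 4 → R3)) (rep : List (Fin K) → R3)
    (u : List (Fin K)) (hD : IsFam B (Δ u) (fun i => Δ (u ++ [i])))
    (hr : ∀ i, rep (u ++ [i]) ∈ hull (Δ (u ++ [i])))
    (g : Finset (Fin (6 + 1)) → ((Fin 6 → ℝ) →ₗ[ℝ] ℝ)) (c : Finset (Fin (6 + 1)) → ℝ)
    (hg : ∀ J, g J ≠ 0) (k : Fin (6 + 1)) :
    (Rset rep (Reg g c k) u).ncard ≤ (Gset Δ (Reg g c k) u).ncard + 128 * (7 * B * K) := by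
  classical
  obtain ⟨Bad, hBad⟩ : ∃ Bad : Finset (Fin (6 + 1)) → Set (Fin K × Fin K), Bad = fun J =>
      {q : Fin K × Fin K | ¬ ((∀ x ∈ hull (Δ (u ++ [q.1])), ∀ y ∈ hull (Δ (u ++ [q.2])), 0 < g J (Pl x y) - c J) ∨
      (∀ x ∈ hull (Δ (u ++ [q.1])), ∀ y ∈ hull (Δ (u ++ [q.2])), g J (Pl x y) - c J < 0))} := ⟨_, rfl⟩
  have hcount : ∀ J, (Bad J).ncard ≤ 7 * B * K := by
    intro J
    rw [hBad]
    obtain ⟨h1, h2, h3⟩ := Pl_aff (g J) (c J)
    exact L3 hD (fun x y => g J (Pl x y) - c J) h1 h2 (h3 (hg J))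
  have hsub : Rset rep (Reg g c k) u ⊆ Gset Δ (Reg g c k) u ∪ ⋃ J, Bad J := by
    rintro q ⟨hq1, hq2⟩
    by_cases hb : q ∈ ⋃ J, Bad J
    · exact Or.inr hb
    · left
      refine ⟨hq1, ?_⟩
      intro x hx y hy J
      have hJ : q ∉ Bad J := fun h => hb (Set.mem_iUnion.mpr ⟨J, h⟩)
      rw [hBad] at hJ
      have hJ' := not_not.mp hJ
      have hrep := hq2 J
      constructor
      · intro hk
        have h1 := hrep.1 hk
        rcases hJ' with h | h
        · have := h x hx y hy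
          linarith
        · have := h _ (hr q.1) _ (hr q.2)
          linarith
      · intro hk
        have h1 := hrep.2 hk
        rcases hJ' with h | h
        · have := h _ (hr q.1) _ (hr q.2)
          linarith
        · have := h x hx y hy
          linarith
  have hunion : (⋃ J, Bad J).ncard ≤ ∑ J : Finset (Fin (6 + 1)), (Bad J).ncard := by
    have : (⋃ J, Bad J) = ((Finset.univ.biUnion (fun J => (Bad J).toFinset) : Finset (Fin K × Fin K)) :
        Set (Fin K × Fin K)) := by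
      ext q
      simp
    rw [this, Set.ncard_coe_finset]
    refine Finset.card_biUnion_le.trans (Finset.sum_le_sum (fun J _ => ?_))
    rw [Set.ncard_eq_toFinset_card']
  calc (Rset rep (Reg g c k) u).ncard ≤ (Gset Δ (Reg g c k) u ∪ ⋃ J, Bad J).ncard :=
        Set.ncard_le_ncard hsub (Set.toFinite _)
    _ ≤ (Gset Δ (Reg g c k) u).ncard + (⋃ J, Bad J).ncard := Set.ncard_union_le _ _
    _ ≤ (Gset Δ (Reg g c k) u).ncard + ∑ J : Finset (Fin (6 + 1)), (Bad J).ncard :=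
        Nat.add_le_add_left hunion _
    _ ≤ (Gset Δ (Reg g c k) u).ncard + ∑ J : Finset (Fin (6 + 1)), 7 * B * K :=
        Nat.add_le_add_left (Finset.sum_le_sum (fun J _ => hcount J)) _
    _ = (Gset Δ (Reg g c k) u).ncard + 128 * (7 * B * K) := by
        rw [Finset.sum_const, Finset.card_univ, Fintype.card_finset, Fintype.card_fin, smul_eq_mul]
        norm_num

end

section

/-- counting on the tree: the regions -/
theorem A7 : ∃ (t : ℕ) (ρ : ℝ), 0 < ρ ∧ 1 ≤ t ∧ ∀ (D : ℕ) (Δ : List (Fin (4 ^ t)) → (Fin 4 → R3))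
    (rep : List (Fin (4 ^ t)) → R3), 1 ≤ D →
    (∀ u, u.length < D → IsFam (3 ^ t) (Δ u) (fun i => Δ (u ++ [i]))) →
    (∀ u, u.length ≤ D → rep u ∈ hull (Δ u)) →
    ∃ (g : Finset (Fin (6 + 1)) → ((Fin 6 → ℝ) →ₗ[ℝ] ℝ)) (c : Finset (Fin (6 + 1)) → ℝ),
      ∀ k : Fin (6 + 1), ρ * D ≤ tot D (fun u => (({q : Fin (4 ^ t) × Fin (4 ^ t) | q.1 < q.2 ∧
        ∀ x ∈ hull (Δ (u ++ [q.1])), ∀ y ∈ hull (Δ (u ++ [q.2])), Pl x y ∈ Reg g c k}.ncard : ℕ) : ℝ))
          [] := by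
  obtain ⟨t, ht, hc1, hc2⟩ := consts
  refine ⟨t, _, hc2, ht, ?_⟩
  intro D Δ rep hD hfam hrep
  have hK1 : 1 ≤ 4 ^ t := Nat.one_le_pow _ _ (by norm_num)
  have hcast : (((4 ^ t : ℕ)) : ℝ) = (4 : ℝ) ^ t := by push_cast; rfl
  have hcastB : (((3 ^ t : ℕ)) : ℝ) = (3 : ℝ) ^ t := by push_cast; rfl
  have hDpos : (0 : ℝ) < (D : ℝ) := by exact_mod_cast hD
  have htot := (pairs_card (4 ^ t) D).2 hK1
  rw [hcast] at htot
  obtain ⟨hmono, hadd, hconst⟩ := tot_basic hK1 D ([] : List (Fin (4 ^ t)))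
  have h7pos : (0 : ℝ) < 7 * (3 : ℝ) ^ t * 4 ^ t := by positivity
  have hκ : (0 : ℝ) < (1 / (2 * ((6 : ℝ) + 1))) ^ (2 ^ (6 + 1) + 1) := by positivity
  have hpairpos : (0 : ℝ) < ((4 : ℝ) ^ t * ((4 : ℝ) ^ t - 1) / 2) := by
    by_contra hcon
    push Not at hcon
    have := mul_nonpos_of_nonneg_of_nonpos hκ.le hcon
    linarith
  have hKB : (((7 * 3 ^ t * 4 ^ t : ℕ)) : ℝ) = 7 * (3 : ℝ) ^ t * 4 ^ t := by push_cast; ring
  obtain ⟨g, c, hg, hreg⟩ := A2 (d := 6) (by norm_num)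
    (nodes D ([] : List (Fin (4 ^ t))) ×ˢ
      (Finset.univ.filter fun q : Fin (4 ^ t) × Fin (4 ^ t) => q.1 < q.2))
    (fun z : List (Fin (4 ^ t)) × (Fin (4 ^ t) × Fin (4 ^ t)) =>
        Pl (rep (z.1 ++ [z.2.1])) (rep (z.1 ++ [z.2.2])))
    (fun z => (1 / (((4 ^ t : ℕ)) : ℝ)) ^ z.1.length)
    (fun z _ => by positivity)
    (by
      rw [hcast, htot]
      positivity)
    (by
      intro g c hg
      rw [mass_tot]
      have h1 := hmono (fun u => ((Rset rep {x | g x = c} u).ncard : ℝ))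
        (fun _ => 7 * (3 : ℝ) ^ t * 4 ^ t) (by
          intro v hv
          simp only [List.length_nil, zero_add] at hv
          have h2 := hyper_count Δ rep v (hfam v hv)
            (fun i => hrep _ (by simp only [List.length_append, List.length_singleton]; omega)) g c hg
          rw [← hKB]
          exact_mod_cast h2)
      rw [hconst] at h1
      rw [hcast, htot]
      have h3 := mul_le_mul_of_nonneg_right hc1 hDpos.le
      push_cast
      calc _ ≤ 7 * (3 : ℝ) ^ t * 4 ^ t * D := h1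
        _ ≤ _ := h3
        _ = _ := by ring)
  refine ⟨g, c, fun k => ?_⟩
  have h1 := hreg k
  rw [mass_tot, hcast, htot] at h1
  have h2 := hmono (fun u => ((Rset rep (Reg g c k) u).ncard : ℝ))
    (fun u => ((Gset Δ (Reg g c k) u).ncard : ℝ) + 128 * (7 * (3 : ℝ) ^ t * 4 ^ t)) (by
      intro v hv
      simp only [List.length_nil, zero_add] at hv
      have h3 := region_count Δ rep v (hfam v hv)
        (fun i => hrep _ (by simp only [List.length_append, List.length_singleton]; omega)) g c hg k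
      rw [← hKB]
      exact_mod_cast h3)
  rw [hadd (fun u => ((Gset Δ (Reg g c k) u).ncard : ℝ)) (fun _ => 128 * (7 * (3 : ℝ) ^ t * 4 ^ t)),
    hconst] at h2
  push_cast at h1
  have h4 := h1.trans h2
  have h5 : (((1 / (2 * ((6 : ℝ) + 1))) ^ (2 ^ (6 + 1)) * ((4 : ℝ) ^ t * ((4 : ℝ) ^ t - 1) / 2) -
      128 * (7 * (3 : ℝ) ^ t * 4 ^ t)) * D) ≤
      tot D (fun u => ((Gset Δ (Reg g c k) u).ncard : ℝ)) [] := by
    have e : (((1 / (2 * ((6 : ℝ) + 1))) ^ (2 ^ (6 + 1)) * ((4 : ℝ) ^ t * ((4 : ℝ) ^ t - 1) / 2) -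
      128 * (7 * (3 : ℝ) ^ t * 4 ^ t)) * D) =
      (1 / (2 * ((6 : ℝ) + 1))) ^ (2 ^ (6 + 1)) * ((4 : ℝ) ^ t * ((4 : ℝ) ^ t - 1) / 2 * D) -
      128 * (7 * (3 : ℝ) ^ t * 4 ^ t) * D := by ring
    rw [e]
    linarith
  exact h5

end

section

/-- the universal lemma -/
theorem A9 : ∃ C d : ℕ, ∀ (m : ℕ) (X : Finset R3), 1 ≤ m → PlaneFour X → C * m ^ d ≤ X.card →
    ∃ a : Fin 7 → Fin m → R3, (∀ k i, a k i ∈ X) ∧ (∀ k, Function.Injective (a k)) ∧
      ∀ q : (Fin 6 → ℝ) →ₗ[ℝ] ℝ, q ≠ 0 → ∃ k : Fin 7,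
        (∀ i j, i < j → 0 < q (Pl (a k i) (a k j))) ∨ (∀ i j, i < j → q (Pl (a k i) (a k j)) < 0) := by
  obtain ⟨t, ρ, hρ, ht, hA7⟩ := A7
  obtain ⟨C6, hC6, hA6⟩ := A6 t
  have hKpos : (0 : ℝ) < ((4 ^ t : ℕ) : ℝ) := by positivity
  have hc : 0 < ρ / (2 * ((4 ^ t : ℕ) : ℝ) ^ 2) := by positivity
  obtain ⟨C', d, hcd⟩ := depth_choice C6 hC6 _ hc
  refine ⟨C', d, ?_⟩
  intro m X hm hX hcard
  obtain ⟨D, hD1, hDX, hl⟩ := hcd m X.card hm hcard
  obtain ⟨Δ, rep, hΔ, hr⟩ := hA6 D X hX hDX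
  obtain ⟨g, c', hg⟩ := hA7 D Δ rep hD1 hΔ (fun u hu => (hr u hu).2)
  have key : ∀ k : Fin 7, ∃ a : Fin m → R3, (∀ i, a i ∈ X) ∧ Function.Injective a ∧
      ∀ i j, i < j → Pl (a i) (a j) ∈ Reg g c' k := by
    intro k
    obtain ⟨L, hL0, hLlen, hLp, hLlog⟩ := A8 (K := 4 ^ t) (Nat.one_le_pow _ _ (by norm_num))
      (Gset Δ (Reg g c' k)) D
    have h1 : ρ / (2 * ((4 ^ t : ℕ) : ℝ) ^ 2) * D ≤ (Nat.log 2 L.length : ℝ) := by
      refine le_trans ?_ hLlog
      have h2 := hg k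
      have h3 : ρ / (2 * ((4 ^ t : ℕ) : ℝ) ^ 2) * D =
          (1 / (2 * ((4 ^ t : ℕ) : ℝ) ^ 2)) * (ρ * D) := by ring
      rw [h3]
      exact mul_le_mul_of_nonneg_left h2 (by positivity)
    exact leaves_list X Δ rep hΔ hr (Reg g c' k) L hLlen hLp
      (hl L.length h1 (fun h => hL0 (List.length_eq_zero_iff.1 h)))
  choose a ha1 ha2 ha3 using key
  refine ⟨a, ha1, ha2, ?_⟩
  intro q hq
  obtain ⟨j, hj⟩ := A3 g c' q 0 hq
  refine ⟨j, ?_⟩
  rcases hj with hj | hj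
  · left
    intro i i' hii
    exact hj _ (ha3 j i i' hii)
  · right
    intro i i' hii
    exact hj _ (ha3 j i i' hii)

end

section

/-- separation of lines from many points -/
theorem A10 : ∃ C d : ℕ, ∀ (m : ℕ) (A B : Finset R3), 1 ≤ m → PlaneFour B →
    C * m ^ d ≤ A.card → C * m ^ d ≤ B.card →
    ∃ A' ⊆ A, ∃ B' ⊆ B, m ≤ A'.card ∧ m ≤ B'.card ∧ ∀ a ∈ A', ∀ a' ∈ A', a ≠ a' →
      ∃ (g : R3 →ₗ[ℝ] ℝ) (c : ℝ), g a = c ∧ g a' = c ∧ ∀ b ∈ B', c < g b := by
  classical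
  obtain ⟨c, n0, hc, hc1, hn0, hA5⟩ := A5
  obtain ⟨C, d, hdepth⟩ := depth_choice2 c n0 hc hc1
  refine ⟨C, d, fun m A B hm hPF hA hB => ?_⟩
  have h4m := (hdepth m A.card hm hA).1
  obtain ⟨-, t, ht1, ht2, ht3⟩ := hdepth m B.card hm hB
  obtain ⟨v, hv⟩ := bigSimplex B
  obtain ⟨D, hD, hcnt⟩ := hA5 t v B hv hPF ht2
  -- relations
  let r : Fin (4 ^ t) → R3 → R3 → Prop := fun j a a' =>
    a ≠ a' ∧ ((line[ℝ, a, a'] : Set R3) ∩ hull (D j)).Nonempty
  have hsymm : ∀ j x y, r j x y → r j y x := by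
    rintro j x y ⟨h1, h2⟩
    refine ⟨h1.symm, ?_⟩
    rwa [Set.pair_comm]
  have hcount : ∀ a a' : R3, (Finset.univ.filter fun j => r j a a').card ≤ 3 ^ t := by
    intro a a'
    by_cases haa : a = a'
    · have : (Finset.univ.filter fun j => r j a a') = ∅ := by
        apply Finset.filter_eq_empty_iff.mpr
        intro j _ hj
        exact hj.1 haa
      rw [this]
      simp
    · have h1 := line_meet hD a a' haa
      refine le_trans ?_ h1
      rw [Set.ncard_eq_toFinset_card']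
      apply Finset.card_le_card
      intro j hj
      rw [Finset.mem_filter] at hj
      rw [Set.mem_toFinset]
      exact hj.2.2
  have hsum : ∑ j : Fin (4 ^ t), ∑ a ∈ A, (A.filter fun b => r j a b).card ≤
      3 ^ t * A.card ^ 2 := by
    calc ∑ j : Fin (4 ^ t), ∑ a ∈ A, (A.filter fun b => r j a b).card
        = ∑ a ∈ A, ∑ b ∈ A, (Finset.univ.filter fun j => r j a b).card := by
          rw [Finset.sum_comm]
          refine Finset.sum_congr rfl (fun a _ => ?_)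
          simp only [Finset.card_filter]
          rw [Finset.sum_comm]
      _ ≤ ∑ a ∈ A, ∑ b ∈ A, 3 ^ t :=
          Finset.sum_le_sum (fun a _ => Finset.sum_le_sum (fun b _ => hcount a b))
      _ = 3 ^ t * A.card ^ 2 := by
          simp only [Finset.sum_const, smul_eq_mul]
          ring
  have hex : ∃ j : Fin (4 ^ t), 4 ^ t * ∑ a ∈ A, (A.filter fun b => r j a b).card ≤
      3 ^ t * A.card ^ 2 := by
    by_contra hcon
    push Not at hcon
    have hne : (Finset.univ : Finset (Fin (4 ^ t))).Nonempty :=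
      ⟨⟨0, by positivity⟩, Finset.mem_univ _⟩
    have h1 := Finset.sum_lt_sum_of_nonempty hne (fun j _ => hcon j)
    have h2 := Nat.mul_le_mul_left (4 ^ t) hsum
    have h3 : 4 ^ t * (3 ^ t * A.card ^ 2) <
        4 ^ t * ∑ j : Fin (4 ^ t), ∑ a ∈ A, (A.filter fun b => r j a b).card := by
      calc 4 ^ t * (3 ^ t * A.card ^ 2) = ∑ _j : Fin (4 ^ t), 3 ^ t * A.card ^ 2 := by
            rw [Finset.sum_const, Finset.card_univ, Fintype.card_fin, smul_eq_mul]
        _ < ∑ j : Fin (4 ^ t), 4 ^ t * ∑ a ∈ A, (A.filter fun b => r j a b).card := h1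
        _ = _ := (Finset.mul_sum _ _ _).symm
    exact absurd h2 (not_le.mpr h3)
  obtain ⟨j, hj⟩ := hex
  have hdeg : 8 * m * ∑ a ∈ A, (A.filter fun b => r j a b).card ≤ A.card ^ 2 := by
    have h4 : 0 < 4 ^ t := by positivity
    apply Nat.le_of_mul_le_mul_left _ h4
    calc 4 ^ t * (8 * m * ∑ a ∈ A, (A.filter fun b => r j a b).card)
        = 8 * m * (4 ^ t * ∑ a ∈ A, (A.filter fun b => r j a b).card) := by ring
      _ ≤ 8 * m * (3 ^ t * A.card ^ 2) := Nat.mul_le_mul_left _ hj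
      _ = (8 * m * 3 ^ t) * A.card ^ 2 := by ring
      _ ≤ 4 ^ t * A.card ^ 2 := Nat.mul_le_mul_right _ ht1
  obtain ⟨A', hA'A, hmA', hA'⟩ := greedy A (r j) (hsymm j) m hm h4m hdeg
  refine ⟨A', hA'A, B.filter (fun x => x ∈ hull (D j)), Finset.filter_subset _ _, hmA', ?_, ?_⟩
  · have h1 := hcnt j
    have h2 : (cnt B (hull (D j)) : ℝ) = ((B.filter (fun x => x ∈ hull (D j))).card : ℝ) := by
      unfold cnt
      congr
    rw [h2] at h1
    exact_mod_cast ht3.trans h1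
  · intro a ha a' ha' hne
    have h1 := hA' a ha a' ha' hne
    have h2 : ¬ ((line[ℝ, a, a'] : Set R3) ∩ hull (D j)).Nonempty := fun h => h1 ⟨hne, h⟩
    obtain ⟨g, e, hg1, hg2, hg3⟩ := sep (D j) a a' h2
    exact ⟨g, e, hg1, hg2, fun b hb => hg3 b (Finset.mem_filter.mp hb).2⟩

end

section

/-- semialgebraic Ramsey lemma -/
theorem partA : ∃ C d : ℕ, ∀ m n : ℕ, 1 ≤ m → C * m ^ d ≤ n → ∀ f : Fin n → (Fin 3 → ℝ),
    Function.Injective f →
    (∀ (g : (Fin 3 → ℝ) →ₗ[ℝ] ℝ) (c : ℝ), g ≠ 0 →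
      (Finset.univ.filter (fun i => g (f i) = c)).card ≤ 4) →
    ∃ a b : Fin m → Fin n, ∀ i j k l, i < j → k < l → 0 < chi (f (a i)) (f (a j)) (f (b k)) (f (b l)) := by
  classical
  obtain ⟨C9, d9, h9⟩ := A9
  obtain ⟨C10, d10, h10⟩ := A10
  refine ⟨C10 * (C9 + 1) ^ d10 + 1, (max d9 7) * d10, ?_⟩
  intro m n hm hn f hf hpl
  have hmpos : 1 ≤ m ^ ((max d9 7) * d10) := Nat.one_le_pow _ _ (by omega)
  have hn1 : 1 ≤ n := by
    refine le_trans ?_ hn
    exact Nat.mul_pos (Nat.succ_pos _) hmpos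
  rcases Nat.lt_or_ge m 2 with hm2 | hm2
  · have hm1 : m = 1 := by omega
    subst hm1
    refine ⟨fun _ => ⟨0, hn1⟩, fun _ => ⟨0, hn1⟩, ?_⟩
    intro i j k l hij
    exfalso
    have h1 := i.2
    have h2 := j.2
    have h3 : (i : ℕ) < j := hij
    omega
  -- main case
  set M1 : ℕ := (C9 + 1) * m ^ (max d9 7) with hM1
  have hM1pos : 1 ≤ M1 := Nat.mul_pos (Nat.succ_pos _) (Nat.pow_pos (by omega))
  have hM1d : C9 * m ^ d9 ≤ M1 :=
    Nat.mul_le_mul (Nat.le_succ _) (Nat.pow_le_pow_right (by omega) (le_max_left _ _))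
  have hM17 : m ^ 7 ≤ M1 := by
    calc m ^ 7 = 1 * m ^ 7 := (one_mul _).symm
      _ ≤ (C9 + 1) * m ^ (max d9 7) :=
        Nat.mul_le_mul (Nat.succ_le_succ (Nat.zero_le _))
          (Nat.pow_le_pow_right (by omega) (le_max_right _ _))
  have hbig : C10 * M1 ^ d10 ≤ n := by
    refine le_trans ?_ hn
    have : C10 * M1 ^ d10 = C10 * (C9 + 1) ^ d10 * m ^ ((max d9 7) * d10) := by
      rw [hM1, mul_pow, ← pow_mul]; ring
    rw [this]
    exact Nat.mul_le_mul_right _ (Nat.le_succ _)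
  set X : Finset R3 := Finset.univ.image f with hX
  have hXcard : X.card = n := by
    rw [hX, Finset.card_image_of_injective _ hf]; simp
  have hcnt : ∀ (Y : Finset R3), Y ⊆ X → PlaneFour Y := by
    intro Y hY g e hg
    have h1 := hpl g e hg
    have h2 : cnt Y {x | g x = e} = (Y.filter (fun x => x ∈ {x | g x = e})).card := by
      unfold cnt; congr
    rw [h2]
    refine le_trans (Finset.card_le_card ?_) (le_trans (Finset.card_image_le (f := f) (s := Finset.univ.filter (fun i => g (f i) = e))) h1)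
    intro x hx
    simp only [Finset.mem_filter, Set.mem_setOf_eq] at hx
    have hxX := hY hx.1
    rw [hX, Finset.mem_image] at hxX
    obtain ⟨i, _, hi⟩ := hxX
    refine Finset.mem_image.2 ⟨i, ?_, hi⟩
    simp only [Finset.mem_filter, Finset.mem_univ, true_and]
    rw [hi]; exact hx.2
  obtain ⟨A', hA', B', hB', hA'c, hB'c, hsep⟩ :=
    h10 M1 X X hM1pos (hcnt X (Finset.Subset.refl _)) (by rw [hXcard]; exact hbig) (by rw [hXcard]; exact hbig)
  obtain ⟨a, haA, hainj, hq⟩ := h9 m A' hm (hcnt A' hA') (le_trans hM1d hA'c)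
  have hne : ∀ k i j, i < j → a k i ≠ a k j := fun k i j hij h => (ne_of_lt hij) (hainj k h)
  obtain ⟨k, b, hb, hbr⟩ := chains B' (fun k x y => ∀ i j : Fin m, i < j → 0 < chi (a k i) (a k j) x y)
    (by
      intro k x hx h
      have h0 := h ⟨0, by omega⟩ ⟨1, by omega⟩ (by simp [Fin.lt_def])
      have h1 := (chi_id (a k ⟨0, by omega⟩) (a k ⟨1, by omega⟩)).1 x x
      linarith)
    (by
      intro k x hx y hy z hz hxy hyz i j hij
      obtain ⟨g, c, hg1, hg2, hgB⟩ := hsep (a k i) (haA k i) (a k j) (haA k j) (hne k i j hij)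
      have hid := (chi_id (a k i) (a k j)).2 g c hg1 hg2 x y z
      have h1 := hgB x hx
      have h2 := hgB y hy
      have h3 := hgB z hz
      have h4 := hxy i j hij
      have h5 := hyz i j hij
      have h6 : 0 < (g y - c) * chi (a k i) (a k j) x z := by
        rw [hid]
        have := mul_pos (sub_pos.2 h1) h5
        have := mul_pos (sub_pos.2 h3) h4
        linarith
      exact (pos_iff_pos_of_mul_pos h6).1 (sub_pos.2 h2))
    (by
      intro x hx y hy hxy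
      obtain ⟨q, hq0, hqc⟩ := chi_pl x y hxy
      obtain ⟨k, hk⟩ := hq q hq0
      refine ⟨k, ?_⟩
      rcases hk with hk | hk
      · left
        intro i j hij
        rw [← hqc]; exact hk i j hij
      · right
        intro i j hij
        have h1 := hk i j hij
        rw [hqc] at h1
        have h2 := (chi_id (a k i) (a k j)).1 x y
        rw [h2]; linarith)
    m hm (le_trans hM17 hB'c)
  have hpre : ∀ x ∈ X, ∃ i, f i = x := by
    intro x hx
    rw [hX, Finset.mem_image] at hx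
    obtain ⟨i, _, hi⟩ := hx
    exact ⟨i, hi⟩
  choose u hu using fun i => hpre (a k i) (hA' (haA k i))
  choose v hv using fun i => hpre (b i) (hB' (hb i))
  refine ⟨u, v, ?_⟩
  intro i j p q hij hpq
  rw [hu, hu, hv, hv]
  exact hbr p q hpq i j hij

end

end KnotA
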